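import Pool.Agent.W89.Sv.Weight

/-!
# Sequences with a level of distribution: the members divisible by the primes of a set
-/

set_option autoImplicit false

namespace Pool.Agent.Q253.Pal

open Finset Filter
open Pool.Agent.W89.Sv

/-- an upper bound sieve with level `z` -/
theorem UA_one (m : ℕ) (hm : m ≠ 0) (h2m : 2 ∣ m) : ∃ C : ℝ, 0 < C ∧ ∃ z0 : ℕ, ∀ z : ℕ, z0 ≤ z → ∀ D : ℝ, (z : ℝ) ≤ D →
    ∀ (ι : Type) (S : Finset ι) (v : ι → ℕ) (X : ℝ), 0 ≤ X → ∀ d : ℕ, 0 < d → d.Coprime (PZ m z) →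
    sift m S v d z ≤ C * (X / d * VZ m z) + RR m S v X d z D := by
  obtain ⟨c, hc, -, -⟩ := final_consts m hm h2m
  obtain ⟨hc0, hUA⟩ := hc 55 (by norm_num)
  obtain ⟨z0, h⟩ := hUA 1 one_pos
  refine ⟨c 55 + 1, by positivity, z0, ?_⟩
  intro z hz D hD ι S v X hX d hd hdz
  refine h z hz D ?_ ι S v X hX d hd hdz
  norm_num
  exact hD

open Classical in
/-- **The members divisible by the primes of a set.** -/
theorem rich_level (m : ℕ) (hm : m ≠ 0) (h2m : 2 ∣ m) : ∃ C : ℝ, 0 < C ∧ ∃ z0 : ℕ, ∀ z : ℕ, z0 ≤ z → ∀ D Y : ℝ, (z : ℝ) ≤ D →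
    ∀ (ι : Type) (S : Finset ι) (v : ι → ℕ) (X : ℝ), 0 ≤ X → ∀ T : Finset ℕ,
      (∀ q ∈ T, q.Prime ∧ z ≤ q ∧ ¬ q ∣ m ∧ (q : ℝ) ≤ Y) →
      ∑ q ∈ T, sift m S v q z ≤ C * (X * VZ m z) * ∑ q ∈ T, (1 : ℝ) / q +
        ∑ n ∈ (Icc 1 ⌊Y * D⌋₊).filter (fun n => n.Coprime m), (n.divisors.card : ℝ) ^ 2 * |rem S v X n| := by
  obtain ⟨C, hC, z0, h⟩ := UA_one m hm h2m
  refine ⟨C, hC, z0, ?_⟩
  intro z hz D Y hD ι S v X hX T hT
  have hcop : ∀ q ∈ T, q.Coprime (PZ m z) := by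
    intro q hq
    obtain ⟨h1, h2, h3, -⟩ := hT q hq
    rw [Nat.Prime.coprime_iff_not_dvd h1]
    intro hd
    unfold PZ at hd
    obtain ⟨p, hp, hqp⟩ := (Prime.dvd_finsetProd_iff h1.prime _).1 hd
    rw [mem_PP] at hp
    have := (Nat.prime_dvd_prime_iff_eq h1 hp.2.1).1 hqp
    omega
  have h1 : ∑ q ∈ T, sift m S v q z ≤ ∑ q ∈ T, (C * (X / q * VZ m z) + RR m S v X q z D) :=
    sum_le_sum fun q hq => h z hz D hD ι S v X hX q (hT q hq).1.pos (hcop q hq)
  rw [sum_add_distrib] at h1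
  have h2 : ∑ q ∈ T, C * (X / q * VZ m z) = C * (X * VZ m z) * ∑ q ∈ T, (1 : ℝ) / q := by
    rw [mul_sum]
    apply sum_congr rfl
    intro q _
    ring
  rw [h2] at h1
  refine h1.trans (add_le_add le_rfl ?_)
  -- the remainder
  obtain ⟨F, hF⟩ : ∃ F : ℕ → ℝ, F = fun n => (n.divisors.card : ℝ) ^ 2 * |rem S v X n| := ⟨_, rfl⟩
  have hF0 : ∀ n, 0 ≤ F n := fun n => by rw [hF]; positivity
  obtain ⟨P, hP⟩ : ∃ P : Finset ℕ, P = (PZ m z).divisors.filter (fun l : ℕ => (l : ℝ) ≤ D) := ⟨_, rfl⟩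
  have hPZ0 : PZ m z ≠ 0 := (PZ_sqf m z).ne_zero
  have hinj : Set.InjOn (fun x : ℕ × ℕ => x.1 * x.2) ((T ×ˢ P : Finset (ℕ × ℕ)) : Set (ℕ × ℕ)) := by
    rintro ⟨q, l⟩ hx ⟨q', l'⟩ hx' heq
    simp only [coe_product, Set.mem_prod, mem_coe] at hx hx'
    simp only at heq
    obtain ⟨hq, hl⟩ := hx
    obtain ⟨hq', hl'⟩ := hx'
    rw [hP, mem_filter, Nat.mem_divisors] at hl hl'
    have h3 : q ∣ q' * l' := by rw [← heq]; exact dvd_mul_right _ _
    have h4 : ¬ q ∣ l' := by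
      intro hd
      have := (Nat.Prime.coprime_iff_not_dvd (hT q hq).1).1 (hcop q hq)
      exact this (hd.trans hl'.1.1)
    have h5 : q = q' := by
      rcases ((hT q hq).1.dvd_mul).1 h3 with h6 | h6
      · exact (Nat.prime_dvd_prime_iff_eq (hT q hq).1 (hT q' hq').1).1 h6
      · exact absurd h6 h4
    subst h5
    rw [Nat.eq_of_mul_eq_mul_left (hT q hq).1.pos heq]
  calc ∑ q ∈ T, RR m S v X q z D ≤ ∑ q ∈ T, ∑ l ∈ P, F (q * l) := by
        apply sum_le_sum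
        intro q hq
        unfold RR
        rw [← hP, hF]
        apply sum_le_sum
        intro l hl
        apply mul_le_mul_of_nonneg_right _ (abs_nonneg _)
        apply pow_le_pow_left₀ (Nat.cast_nonneg _)
        have hl0 : 0 < l := by
          rw [hP, mem_filter, Nat.mem_divisors] at hl
          exact Nat.pos_of_dvd_of_pos hl.1.1 (Nat.pos_of_ne_zero hPZ0)
        exact_mod_cast card_le_card (Nat.divisors_subset_of_dvd (Nat.mul_pos (hT q hq).1.pos hl0).ne' (dvd_mul_left l q))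
    _ = ∑ x ∈ T ×ˢ P, F (x.1 * x.2) := (sum_product (s := T) (t := P) (f := fun x : ℕ × ℕ => F (x.1 * x.2))).symm
    _ = ∑ n ∈ (T ×ˢ P).image (fun x : ℕ × ℕ => x.1 * x.2), F n := (sum_image (f := F) hinj).symm
    _ ≤ _ := by
        rw [hF]
        apply sum_le_sum_of_subset_of_nonneg
        · intro n hn
          rw [mem_image] at hn
          obtain ⟨⟨q, l⟩, hx, rfl⟩ := hn
          rw [mem_product, hP, mem_filter, Nat.mem_divisors] at hx
          obtain ⟨hq, ⟨hl1, -⟩, hl2⟩ := hx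
          simp only at hq hl1 hl2 ⊢
          obtain ⟨q1, q2, q3, q4⟩ := hT q hq
          have hl0 : 0 < l := Nat.pos_of_dvd_of_pos hl1 (Nat.pos_of_ne_zero hPZ0)
          have hq0 : (0 : ℝ) < q := by exact_mod_cast q1.pos
          have hl0r : (0 : ℝ) < l := by exact_mod_cast hl0
          rw [mem_filter, mem_Icc]
          refine ⟨⟨Nat.mul_pos q1.pos hl0, Nat.le_floor ?_⟩, ?_⟩
          · push_cast
            exact mul_le_mul q4 hl2 hl0r.le (hq0.le.trans q4)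
          · apply Nat.Coprime.mul_left
            · exact (q1.coprime_iff_not_dvd).2 q3
            · apply Nat.Coprime.coprime_dvd_left hl1
              unfold PZ
              apply Nat.Coprime.prod_left
              intro p hp
              rw [mem_PP] at hp
              exact (hp.2.1.coprime_iff_not_dvd).2 hp.2.2
        · intro n _ _
          positivity

end Pool.Agent.Q253.Pal
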