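import Pool.Agent.Q253.Pal.Rich
import Pool.Agent.Q253.Cov.Small

/-!
# Sequences with a level of distribution: primes, large prime factors, or one very thin set of prime factors
-/

set_option autoImplicit false

namespace Pool.Agent.Q253.Pal

open Finset Filter Topology
open Pool.Agent.W89.Sv
open Pool.Agent.Q253.Cov (Om mem_Om mertE thin_cover_log)

/-- `N` is `q` times a number `n ≥ 2` with at most `s` prime factors, all `≥ q` -/
def Tm (q s N : ℕ) : Prop := ∃ n : ℕ, 2 ≤ n ∧ N = q * n ∧ n.primeFactorsList.length ≤ s ∧ ∀ p : ℕ, p.Prime → p ∣ n → q ≤ p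

/-- a composite number with at most `r` prime factors is `minFac` times a number with at most `r - 1` prime factors -/
theorem tm_minFac {r N : ℕ} (h2 : 2 ≤ N) (hN : ¬ N.Prime) (hr : N.primeFactorsList.length ≤ r) : Tm N.minFac (r - 1) N := by
  have hp := Nat.minFac_prime (show N ≠ 1 by omega)
  obtain ⟨n, hn⟩ := Nat.minFac_dvd N
  have hn0 : n ≠ 0 := by
    rintro rfl
    omega
  have hn1 : n ≠ 1 := by
    rintro rfl
    rw [mul_one] at hn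
    rw [hn] at hN
    exact hN hp
  refine ⟨n, by omega, hn, ?_, ?_⟩
  · have h1 := (Nat.perm_primeFactorsList_mul hp.ne_zero hn0).length_eq
    rw [← hn, List.length_append, Nat.primeFactorsList_prime hp] at h1
    simp only [List.length_cons, List.length_nil] at h1
    omega
  · intro p hpp hd
    exact Nat.minFac_le_of_dvd hpp.two_le (hn ▸ hd.mul_left _)

/-- the scale of a number -/
theorem scale {Y : ℕ} (hY : 2 ≤ Y) : ∃ i : ℕ, 2 ^ 2 ^ i ≤ Y ∧ Y < (2 ^ 2 ^ i) ^ 2 := by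
  refine ⟨Nat.log 2 (Nat.log 2 Y), ?_, ?_⟩
  · have h1 : 1 ≤ Nat.log 2 Y := (Nat.le_log_iff_pow_le (by norm_num) (by omega)).2 (by rw [pow_one]; exact hY)
    have h2 : 2 ^ Nat.log 2 (Nat.log 2 Y) ≤ Nat.log 2 Y := Nat.pow_log_le_self 2 (by omega)
    exact (Nat.pow_le_pow_right (by norm_num) h2).trans (Nat.pow_log_le_self 2 (by omega))
  · have h1 : Nat.log 2 Y < 2 ^ (Nat.log 2 (Nat.log 2 Y) + 1) := Nat.lt_pow_succ_log_self (by norm_num) _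
    have h2 : Y < 2 ^ (Nat.log 2 Y + 1) := Nat.lt_pow_succ_log_self (by norm_num) _
    refine lt_of_lt_of_le h2 ?_
    rw [← pow_mul]
    apply Nat.pow_le_pow_right (by norm_num)
    rw [pow_succ] at h1
    omega

/-- primes between `b ^ (α L)` and `b ^ L` are primes of the scale of `b ^ L` -/
theorem mem_scale {b L e q i : ℕ} (hb : 2 ≤ b) {α : ℝ} (he2 : 2 ≤ e) (he : 1 ≤ α * e) (hi1 : 2 ^ 2 ^ i ≤ b ^ L) (hi2 : b ^ L < (2 ^ 2 ^ i) ^ 2)
    (hq : q.Prime) (h1 : (b : ℝ) ^ (α * L) ≤ q) (h2 : (q : ℝ) ≤ (b : ℝ) ^ L) : q ∈ Om e (2 ^ 2 ^ i) := by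
  have hbr : (1 : ℝ) ≤ b := by exact_mod_cast (by omega : 1 ≤ b)
  rw [mem_Om]
  refine ⟨hq, ?_, ?_⟩
  · refine hi1.trans ?_
    have h3 : ((b ^ L : ℕ) : ℝ) ≤ ((q ^ e : ℕ) : ℝ) := by
      push_cast
      calc (b : ℝ) ^ L = (b : ℝ) ^ ((L : ℝ)) := (Real.rpow_natCast _ _).symm
        _ ≤ (b : ℝ) ^ ((α * L) * e) := by
            apply Real.rpow_le_rpow_of_exponent_le hbr
            have : (0 : ℝ) ≤ L := Nat.cast_nonneg _
            nlinarith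
        _ = ((b : ℝ) ^ (α * L)) ^ e := by rw [Real.rpow_mul (by positivity), Real.rpow_natCast]
        _ ≤ (q : ℝ) ^ e := pow_le_pow_left₀ (by positivity) h1 e
    exact_mod_cast h3
  · have h3 : q ≤ b ^ L := by exact_mod_cast h2
    have h4 : 1 ≤ 2 ^ 2 ^ i := Nat.one_le_two_pow
    exact (h3.trans hi2.le).trans (Nat.pow_le_pow_right h4 he2)

open Classical in
/-- the primes `q` of `[b ^ (α L), b ^ (β L)]` for which at least `δ X / (L q)` of the members with `P` are `q` times an almost prime -/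
noncomputable def RichS (b r L : ℕ) {ι : Type} (S : Finset ι) (v : ι → ℕ) (P : ι → Prop) (X δ α β : ℝ) : Finset ℕ :=
  (Icc 1 (b ^ L)).filter (fun q => q.Prime ∧ (b : ℝ) ^ (α * L) ≤ q ∧ (q : ℝ) ≤ (b : ℝ) ^ (β * L) ∧
    δ * X / (L * q) ≤ ((S.filter (fun i => P i ∧ Tm q (r - 1) (v i))).card : ℝ))

open Classical in
/-- **The three alternatives.** -/
theorem seq_dich {b r m : ℕ} (hb : 2 ≤ b) (hm : m ≠ 0) (h2m : 2 ∣ m) {κ α : ℝ} (hα : 0 < α) (hακ : α < κ) (hκ1 : κ ≤ 1)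
    {ι : ℕ → Type} (S : (L : ℕ) → Finset (ι L)) (v : (L : ℕ) → ι L → ℕ) (P : (L : ℕ) → ι L → Prop) (X : ℕ → ℝ) (hX : ∀ L, 0 < X L)
    (hlev : ∀ᶠ L : ℕ in atTop, ∑ n ∈ (Icc 1 ⌊(b : ℝ) ^ (κ * L)⌋₊).filter (fun n => n.Coprime m),
      (n.divisors.card : ℝ) ^ 2 * |rem (S L) (v L) (X L) n| ≤ X L / (L : ℝ) ^ 2)
    {c : ℝ} (hc : 0 < c) (hG : ∀ᶠ L : ℕ in atTop, c * X L / L ≤ (((S L).filter (fun i => P L i)).card : ℝ))
    (hP : ∀ᶠ L : ℕ in atTop, ∀ i, P L i → 2 ≤ v L i ∧ (v L i).primeFactorsList.length ≤ r ∧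
      ∀ p : ℕ, p.Prime → p ∣ v L i → (b : ℝ) ^ (α * L) ≤ p)
    (η : ℝ) (hη : 0 < η) :
    ∃ δ : ℝ, 0 < δ ∧ ∃ ρ : ℝ, 0 < ρ ∧ ∀ᶠ L : ℕ in atTop,
      δ * X L / L ≤ (((S L).filter (fun i => P L i ∧ (v L i).Prime)).card : ℝ) ∨
      δ * X L / L ≤ (((S L).filter (fun i => P L i ∧ ¬ (v L i).Prime ∧ ∀ p : ℕ, p.Prime → p ∣ v L i → (b : ℝ) ^ ((κ - η) * L) < p)).card : ℝ) ∨
      ρ ≤ ∑ q ∈ RichS b r L (S L) (v L) (P L) (X L) δ α (κ - η), (1 : ℝ) / q := by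
  have hbr : (2 : ℝ) ≤ b := by exact_mod_cast hb
  have hb1 : (1 : ℝ) ≤ b := by linarith
  have hlb : 0 < Real.log b := Real.log_pos (by linarith)
  obtain ⟨e, he⟩ : ∃ e : ℕ, e = ⌈1 / α⌉₊ + 2 := ⟨_, rfl⟩
  have he2 : 2 ≤ e := by omega
  have heα : 1 ≤ α * e := by
    have h1 : 1 / α ≤ ⌈1 / α⌉₊ := Nat.le_ceil _
    have h2 : 1 / α ≤ e := by
      rw [he]
      push_cast
      linarith
    rw [div_le_iff₀ hα] at h2
    linarith
  obtain ⟨M, hM, Z₀, hmert⟩ := mertE e (by omega)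
  obtain ⟨C, hC, z0, hrich⟩ := rich_level m hm h2m
  obtain ⟨η', hη'⟩ : ∃ η', η' = min η (α / 2) := ⟨_, rfl⟩
  have hη'0 : 0 < η' := by rw [hη']; positivity
  have hη'1 : η' ≤ η := by rw [hη']; exact min_le_left _ _
  have hη'2 : η' ≤ α / 2 := by rw [hη']; exact min_le_right _ _
  obtain ⟨K, hK⟩ : ∃ K, K = cV m + 1 := ⟨_, rfl⟩
  have hK0 : 0 < K := by rw [hK]; have := cV_pos m; linarith
  have hbpow : ∀ a : ℝ, 0 < a → Tendsto (fun L : ℕ => (b : ℝ) ^ (a * L)) atTop atTop := fun a ha =>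
    (tendsto_rpow_atTop_of_base_gt_one b (by linarith)).comp ((tendsto_natCast_atTop_atTop (R := ℝ)).const_mul_atTop ha)
  have hz : Tendsto (fun L : ℕ => ⌊(b : ℝ) ^ (η' * L)⌋₊) atTop atTop := tendsto_nat_floor_atTop.comp (hbpow η' hη'0)
  have ev1 : ∀ᶠ L : ℕ in atTop, VZ m ⌊(b : ℝ) ^ (η' * L)⌋₊ * Real.log (⌊(b : ℝ) ^ (η' * L)⌋₊ : ℝ) < K :=
    ((V_lim m hm).comp hz).eventually_lt_const (by rw [hK]; linarith)
  have ev2 : ∀ᶠ L : ℕ in atTop, max z0 2 ≤ ⌊(b : ℝ) ^ (η' * L)⌋₊ := hz.eventually_ge_atTop _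
  have ev3 : ∀ᶠ L : ℕ in atTop, (m : ℝ) + 1 ≤ (b : ℝ) ^ (α * L) := (hbpow α hα).eventually_ge_atTop _
  have ev4 : ∀ᶠ L : ℕ in atTop, (4 : ℝ) ≤ (b : ℝ) ^ (η' * L) := (hbpow η' hη'0).eventually_ge_atTop _
  have ev5 : ∀ᶠ L : ℕ in atTop, 12 / c + 1 ≤ (L : ℝ) := tendsto_natCast_atTop_atTop.eventually_ge_atTop _
  obtain ⟨δ, hδ⟩ : ∃ δ, δ = min (c / 3) (c / (6 * M)) := ⟨_, rfl⟩
  have hδ0 : 0 < δ := by rw [hδ]; positivity
  have hδ1 : δ ≤ c / 3 := by rw [hδ]; exact min_le_left _ _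
  have hδ2 : δ ≤ c / (6 * M) := by rw [hδ]; exact min_le_right _ _
  obtain ⟨C₂, hC₂⟩ : ∃ C₂, C₂ = 2 * K / (η' * Real.log b) := ⟨_, rfl⟩
  have hC₂0 : 0 < C₂ := by rw [hC₂]; positivity
  refine ⟨δ, hδ0, c / 12 / (C * C₂), by positivity, ?_⟩
  filter_upwards [hlev, hG, hP, ev1, ev2, ev3, ev4, ev5, eventually_ge_atTop (Z₀ ^ 2 + 1)] with L l1 l2 l3 l4 l5 l6 l7 l8 l9
  have hL1 : 1 ≤ L := by omega
  have hL0 : (0 : ℝ) < L := by exact_mod_cast hL1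
  obtain ⟨Y, hY⟩ : ∃ Y : ℝ, Y = (b : ℝ) ^ ((κ - η) * L) := ⟨_, rfl⟩
  obtain ⟨z, hzd⟩ : ∃ z, z = ⌊(b : ℝ) ^ (η' * L)⌋₊ := ⟨_, rfl⟩
  rw [← hzd] at l4 l5
  have hz0 : z0 ≤ z := (le_max_left _ _).trans l5
  have hz2 : 2 ≤ z := (le_max_right _ _).trans l5
  have hzle : (z : ℝ) ≤ (b : ℝ) ^ (η' * L) := by rw [hzd]; exact Nat.floor_le (by positivity)
  have hzge : (b : ℝ) ^ (η' * L) / 2 ≤ z := by
    have h1 : (b : ℝ) ^ (η' * L) < z + 1 := by rw [hzd]; exact Nat.lt_floor_add_one _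
    linarith
  have hzα : (z : ℝ) ≤ (b : ℝ) ^ (α * L) := hzle.trans (Real.rpow_le_rpow_of_exponent_le hb1 (by nlinarith))
  -- the mass
  obtain ⟨N, hN⟩ : ∃ N, N = X L / L := ⟨_, rfl⟩
  have hN0 : 0 < N := by rw [hN]; exact div_pos (hX L) hL0
  have hXV : X L * VZ m z ≤ C₂ * N := by
    have hlz : η' * Real.log b * L / 2 ≤ Real.log z := by
      have h1 : Real.log ((b : ℝ) ^ (η' * L) / 2) ≤ Real.log z := Real.log_le_log (by positivity) hzge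
      rw [Real.log_div (by positivity) (by norm_num), Real.log_rpow (by linarith)] at h1
      have h2 : Real.log 4 ≤ Real.log ((b : ℝ) ^ (η' * L)) := Real.log_le_log (by norm_num) l7
      rw [Real.log_rpow (by linarith)] at h2
      have h3 : Real.log 4 = 2 * Real.log 2 := by
        rw [show (4 : ℝ) = 2 ^ 2 by norm_num, Real.log_pow]
        norm_num
      nlinarith
    have hlz0 : 0 < Real.log z := lt_of_lt_of_le (by positivity) hlz
    have h1 : VZ m z ≤ K / Real.log z := by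
      rw [le_div_iff₀ hlz0]
      exact l4.le
    have h2 : K / Real.log z ≤ K / (η' * Real.log b * L / 2) := div_le_div_of_nonneg_left hK0.le (by positivity) hlz
    calc X L * VZ m z ≤ X L * (K / (η' * Real.log b * L / 2)) := mul_le_mul_of_nonneg_left (h1.trans h2) (hX L).le
      _ = C₂ * N := by
          rw [hC₂, hN]
          field_simp
  have l2' : c * N ≤ (((S L).filter (fun i => P L i)).card : ℝ) := by
    rw [hN, ← mul_div_assoc]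
    exact l2
  -- the three parts
  obtain ⟨G1, hG1⟩ : ∃ G1, G1 = (S L).filter (fun i => P L i ∧ (v L i).Prime) := ⟨_, rfl⟩
  obtain ⟨G2, hG2⟩ : ∃ G2, G2 = (S L).filter (fun i => P L i ∧ ¬ (v L i).Prime ∧ ∀ p : ℕ, p.Prime → p ∣ v L i → Y < p) := ⟨_, rfl⟩
  obtain ⟨G3, hG3⟩ : ∃ G3, G3 = (S L).filter (fun i => P L i ∧ ¬ (v L i).Prime ∧ ((v L i).minFac : ℝ) ≤ Y) := ⟨_, rfl⟩
  have hsum : (((S L).filter (fun i => P L i)).card : ℝ) ≤ G1.card + G2.card + G3.card := by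
    have h1 : (S L).filter (fun i => P L i) ⊆ (G1 ∪ G2) ∪ G3 := by
      intro i hi
      rw [mem_filter] at hi
      rw [mem_union, mem_union, hG1, hG2, hG3, mem_filter, mem_filter, mem_filter]
      by_cases h2 : (v L i).Prime
      · exact Or.inl (Or.inl ⟨hi.1, hi.2, h2⟩)
      by_cases h3 : ((v L i).minFac : ℝ) ≤ Y
      · exact Or.inr ⟨hi.1, hi.2, h2, h3⟩
      · refine Or.inl (Or.inr ⟨hi.1, hi.2, h2, ?_⟩)
        intro p hp hd
        push Not at h3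
        refine lt_of_lt_of_le h3 ?_
        exact_mod_cast Nat.minFac_le_of_dvd hp.two_le hd
    have h2 := (card_le_card h1).trans ((card_union_le _ _).trans (Nat.add_le_add_right (card_union_le _ _) _))
    exact_mod_cast h2
  by_cases c1 : δ * N ≤ G1.card
  · left
    rw [← hG1, mul_div_assoc, ← hN]
    exact c1
  by_cases c2 : δ * N ≤ G2.card
  · right; left
    rw [← hY, ← hG2, mul_div_assoc, ← hN]
    exact c2
  right; right
  push Not at c1 c2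
  have hG3c : c / 3 * N ≤ G3.card := by
    have h1 : δ * N ≤ c / 3 * N := mul_le_mul_of_nonneg_right hδ1 hN0.le
    linarith
  -- the labels
  obtain ⟨Ω, hΩ⟩ : ∃ Ω : Finset ℕ, Ω = (Icc 1 (b ^ L)).filter (fun q : ℕ => q.Prime ∧ (b : ℝ) ^ (α * L) ≤ q ∧ (q : ℝ) ≤ Y) := ⟨_, rfl⟩
  have hYb : Y ≤ (b : ℝ) ^ L := by
    rw [hY, ← Real.rpow_natCast]
    apply Real.rpow_le_rpow_of_exponent_le hb1
    nlinarith
  have hbL : 2 ≤ b ^ L := by
    calc 2 ≤ b := hb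
      _ = b ^ 1 := (pow_one b).symm
      _ ≤ b ^ L := Nat.pow_le_pow_right (by omega) hL1
  obtain ⟨i₀, hi1, hi2⟩ := scale hbL
  have hZ : Z₀ ≤ 2 ^ 2 ^ i₀ := by
    by_contra hcon
    push Not at hcon
    have h1 : b ^ L < Z₀ ^ 2 := lt_of_lt_of_le hi2 (Nat.pow_le_pow_left hcon.le 2)
    have h2 : 2 ^ L ≤ b ^ L := Nat.pow_le_pow_left hb L
    have h3 : L < 2 ^ L := Nat.lt_two_pow_self
    omega
  have hΩM : ∑ q ∈ Ω, (1 : ℝ) / q ≤ M := by
    refine le_trans (sum_le_sum_of_subset_of_nonneg ?_ (fun q _ _ => by positivity)) (hmert _ hZ)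
    intro q hq
    rw [hΩ, mem_filter] at hq
    exact mem_scale hb he2 heα hi1 hi2 hq.2.1 hq.2.2.1 (hq.2.2.2.trans hYb)
  have hlab : ∀ i ∈ G3, (v L i).minFac ∈ Ω := by
    intro i hi
    rw [hG3, mem_filter] at hi
    obtain ⟨hiS, hiP, hip, hiY⟩ := hi
    obtain ⟨p1, p2, p3⟩ := l3 i hiP
    have hpr := Nat.minFac_prime (show v L i ≠ 1 by omega)
    rw [hΩ, mem_filter, mem_Icc]
    refine ⟨⟨hpr.one_le, ?_⟩, hpr, p3 _ hpr (Nat.minFac_dvd _), hiY⟩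
    exact_mod_cast hiY.trans hYb
  obtain ⟨w, hw⟩ : ∃ w : ℕ → ℝ, w = fun q => ((G3.filter (fun i => (v L i).minFac = q)).card : ℝ) := ⟨_, rfl⟩
  have hsumw : (G3.card : ℝ) = ∑ q ∈ Ω, w q := by
    rw [hw, ← Nat.cast_sum, ← card_eq_sum_card_fiberwise hlab]
  obtain ⟨R, hR⟩ : ∃ R, R = RichS b r L (S L) (v L) (P L) (X L) δ α (κ - η) := ⟨_, rfl⟩
  have hnr : ∀ q ∈ Ω, q ∉ R → w q ≤ δ * N * (1 / q) := by
    intro q hq hqR
    rw [hΩ, mem_filter] at hq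
    by_contra hcon
    push Not at hcon
    apply hqR
    rw [hR]
    unfold RichS
    rw [mem_filter]
    refine ⟨hq.1, hq.2.1, hq.2.2.1, hY ▸ hq.2.2.2, ?_⟩
    have h1 : δ * X L / (L * q) = δ * N * (1 / q) := by
      rw [hN]
      field_simp
    rw [h1]
    refine hcon.le.trans ?_
    rw [hw]
    apply Nat.cast_le.2
    apply card_le_card
    intro i hi
    rw [mem_filter, hG3, mem_filter] at hi
    obtain ⟨⟨i1, i2, i3, -⟩, i5⟩ := hi
    obtain ⟨p1, p2, -⟩ := l3 i i2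
    rw [mem_filter]
    refine ⟨i1, i2, ?_⟩
    rw [← i5]
    exact tm_minFac p1 i3 p2
  have hup : ∑ q ∈ Ω.filter (fun q => q ∈ R), w q ≤ C * (X L * VZ m z) * ∑ q ∈ Ω.filter (fun q => q ∈ R), (1 : ℝ) / q + X L / (L : ℝ) ^ 2 := by
    have h1 := hrich z hz0 ((b : ℝ) ^ (η' * L)) Y hzle (ι L) (S L) (v L) (X L) (hX L).le (Ω.filter (fun q => q ∈ R)) (by
      intro q hq
      rw [mem_filter, hΩ, mem_filter] at hq
      obtain ⟨⟨-, q1, q2, q3⟩, -⟩ := hq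
      refine ⟨q1, ?_, ?_, q3⟩
      · exact_mod_cast hzα.trans q2
      · intro hd
        have h2 := Nat.le_of_dvd (Nat.pos_of_ne_zero hm) hd
        have h3 : (q : ℝ) ≤ m := by exact_mod_cast h2
        linarith)
    have h2 : ∑ q ∈ Ω.filter (fun q => q ∈ R), w q ≤ ∑ q ∈ Ω.filter (fun q => q ∈ R), sift m (S L) (v L) q z := by
      apply sum_le_sum
      intro q hq
      rw [hw]
      unfold sift
      apply Nat.cast_le.2
      apply card_le_card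
      intro i hi
      rw [mem_filter, hG3, mem_filter] at hi
      obtain ⟨⟨i1, i2, i3, -⟩, i5⟩ := hi
      rw [mem_filter]
      refine ⟨i1, i5 ▸ Nat.minFac_dvd _, ?_⟩
      unfold PZ
      apply Nat.Coprime.prod_right
      intro p hp
      rw [mem_PP] at hp
      rw [Nat.coprime_comm, Nat.Prime.coprime_iff_not_dvd hp.2.1]
      intro hd
      have h3 := (l3 i i2).2.2 p hp.2.1 hd
      have h4 : (p : ℝ) < z := by exact_mod_cast hp.1
      linarith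
    refine h2.trans (h1.trans (add_le_add le_rfl ?_))
    refine le_trans (sum_le_sum_of_subset_of_nonneg ?_ (fun n _ _ => by positivity)) l1
    apply filter_subset_filter
    apply Icc_subset_Icc_right
    apply Nat.floor_le_floor
    rw [hY, ← Real.rpow_add (by linarith)]
    apply Real.rpow_le_rpow_of_exponent_le hb1
    nlinarith
  have hsplit : ∑ q ∈ Ω, w q = ∑ q ∈ Ω.filter (fun q => q ∈ R), w q + ∑ q ∈ Ω.filter (fun q => ¬ q ∈ R), w q :=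
    (sum_filter_add_sum_filter_not Ω _ _).symm
  have hpoor : ∑ q ∈ Ω.filter (fun q => ¬ q ∈ R), w q ≤ c / 6 * N := by
    calc ∑ q ∈ Ω.filter (fun q => ¬ q ∈ R), w q ≤ ∑ q ∈ Ω.filter (fun q => ¬ q ∈ R), δ * N * (1 / q) := by
          apply sum_le_sum
          intro q hq
          rw [mem_filter] at hq
          exact hnr q hq.1 hq.2
      _ ≤ ∑ q ∈ Ω, δ * N * (1 / q) := sum_le_sum_of_subset_of_nonneg (filter_subset _ _) (fun q _ _ => by positivity)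
      _ = δ * N * ∑ q ∈ Ω, (1 : ℝ) / q := by rw [mul_sum]
      _ ≤ δ * N * M := mul_le_mul_of_nonneg_left hΩM (by positivity)
      _ ≤ c / (6 * M) * N * M := by gcongr
      _ = c / 6 * N := by field_simp
  have hRle : ∑ q ∈ Ω.filter (fun q => q ∈ R), (1 : ℝ) / q ≤ ∑ q ∈ R, (1 : ℝ) / q := by
    apply sum_le_sum_of_subset_of_nonneg
    · intro q hq
      exact (mem_filter.1 hq).2
    · intro q _ _
      positivity
  have hXL2 : X L / (L : ℝ) ^ 2 ≤ c / 12 * N := by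
    have h1 : X L / (L : ℝ) ^ 2 = N * (1 / L) := by
      rw [hN]
      field_simp
    rw [h1, mul_comm]
    apply mul_le_mul_of_nonneg_right _ hN0.le
    rw [div_le_iff₀ hL0]
    have h2 : c / 12 * (12 / c) ≤ c / 12 * L := mul_le_mul_of_nonneg_left (by linarith) (by positivity)
    have h3 : c / 12 * (12 / c) = 1 := by field_simp
    linarith
  rw [← hR]
  rw [div_le_iff₀ (by positivity)]
  have hS0 : 0 ≤ ∑ q ∈ Ω.filter (fun q => q ∈ R), (1 : ℝ) / q := sum_nonneg fun q _ => by positivity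
  have h9 : c / 12 * N ≤ C * (C₂ * N) * ∑ q ∈ Ω.filter (fun q => q ∈ R), (1 : ℝ) / q := by
    have h1 : C * (X L * VZ m z) * ∑ q ∈ Ω.filter (fun q => q ∈ R), (1 : ℝ) / q ≤
        C * (C₂ * N) * ∑ q ∈ Ω.filter (fun q => q ∈ R), (1 : ℝ) / q := by gcongr
    linarith
  have h10 : c / 12 * N ≤ (C * C₂ * ∑ q ∈ R, (1 : ℝ) / q) * N := by
    calc c / 12 * N ≤ C * (C₂ * N) * ∑ q ∈ Ω.filter (fun q => q ∈ R), (1 : ℝ) / q := h9
      _ ≤ C * (C₂ * N) * ∑ q ∈ R, (1 : ℝ) / q := by gcongr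
      _ = _ := by ring
  have h11 := le_of_mul_le_mul_right h10 hN0
  linarith

open Classical in
/-- **One very thin set of prime factors.** -/
theorem seq_thin {b r : ℕ} (hb : 2 ≤ b) {α β : ℝ} (hα : 0 < α) (hβ : β ≤ 1)
    {ι : ℕ → Type} (S : (L : ℕ) → Finset (ι L)) (v : (L : ℕ) → ι L → ℕ) (P : (L : ℕ) → ι L → Prop) (X : ℕ → ℝ) {δ ρ : ℝ} (hρ : 0 < ρ)
    (A : ℕ → Prop) (h : ∀ᶠ L : ℕ in atTop, A L ∨ ρ ≤ ∑ q ∈ RichS b r L (S L) (v L) (P L) (X L) δ α β, (1 : ℝ) / q) :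
    ∃ C : ℝ, 0 < C ∧ ∃ Q : Set ℕ, (∀ q ∈ Q, q.Prime) ∧
      (∀ x : ℕ, 16 ≤ x → {q ∈ Q | q ≤ x}.Finite ∧ ({q ∈ Q | q ≤ x}.ncard : ℝ) ≤ C * Real.log (Real.log x) ^ 2) ∧
      ∀ᶠ L : ℕ in atTop, A L ∨ (ρ ≤ ∑ q ∈ RichS b r L (S L) (v L) (P L) (X L) δ α β, (1 : ℝ) / q ∧
        ∃ q ∈ RichS b r L (S L) (v L) (P L) (X L) δ α β, q ∈ Q) := by
  have hbr : (2 : ℝ) ≤ b := by exact_mod_cast hb
  have hb1 : (1 : ℝ) ≤ b := by linarith
  obtain ⟨e, he⟩ : ∃ e : ℕ, e = ⌈1 / α⌉₊ + 2 := ⟨_, rfl⟩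
  have he2 : 2 ≤ e := by omega
  have heα : 1 ≤ α * e := by
    have h1 : 1 / α ≤ ⌈1 / α⌉₊ := Nat.le_ceil _
    have h2 : 1 / α ≤ e := by
      rw [he]
      push_cast
      linarith
    rw [div_le_iff₀ hα] at h2
    linarith
  obtain ⟨R, hR⟩ : ∃ R : ℕ → Finset ℕ, R = fun L => RichS b r L (S L) (v L) (P L) (X L) δ α β := ⟨_, rfl⟩
  have hR' : ∀ L, RichS b r L (S L) (v L) (P L) (X L) δ α β = R L := fun L => by rw [hR]
  simp only [hR'] at h ⊢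
  obtain ⟨I, hI⟩ : ∃ I : ℕ → Finset ℕ, I = fun i => (range (2 ^ (i + 1))).filter (fun L =>
    2 ^ 2 ^ i ≤ b ^ L ∧ b ^ L < (2 ^ 2 ^ i) ^ 2 ∧ ρ ≤ ∑ q ∈ R L, (1 : ℝ) / q) := ⟨_, rfl⟩
  obtain ⟨C, hC, Q, hQ, hQc, i₁, hhit⟩ := thin_cover_log 1 e (by omega) ρ hρ I (fun _ L => R L) 0 (by
    intro i _
    rw [hI, one_mul]
    refine (card_filter_le _ _).trans ?_
    rw [card_range]) (by
    intro i _ L hL
    rw [hI, mem_filter] at hL
    obtain ⟨-, h1, h2, h3⟩ := hL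
    refine ⟨?_, h3⟩
    intro q hq
    rw [hR] at hq
    unfold RichS at hq
    rw [mem_filter] at hq
    obtain ⟨-, q1, q2, q3, -⟩ := hq
    refine mem_scale hb he2 heα h1 h2 q1 q2 (q3.trans ?_)
    rw [← Real.rpow_natCast]
    apply Real.rpow_le_rpow_of_exponent_le hb1
    have : (0 : ℝ) ≤ L := Nat.cast_nonneg _
    nlinarith)
  refine ⟨C, hC, Q, hQ, hQc, ?_⟩
  filter_upwards [h, eventually_ge_atTop ((2 ^ 2 ^ i₁) ^ 2 + 1)] with L hL hL2
  rcases hL with hL | hL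
  · exact Or.inl hL
  right
  refine ⟨hL, ?_⟩
  have h3 : L < 2 ^ L := Nat.lt_two_pow_self
  have h2 : 2 ^ L ≤ b ^ L := Nat.pow_le_pow_left hb L
  obtain ⟨i, hi1, hi2⟩ := scale (show 2 ≤ b ^ L by
    have : 1 ≤ (2 ^ 2 ^ i₁) ^ 2 := Nat.one_le_pow _ _ (by positivity)
    omega)
  have hii : i₁ ≤ i := by
    by_contra hcon
    push Not at hcon
    have h4 : (2 ^ 2 ^ i) ^ 2 ≤ (2 ^ 2 ^ i₁) ^ 2 :=
      Nat.pow_le_pow_left (Nat.pow_le_pow_right (by norm_num) (Nat.pow_le_pow_right (by norm_num) hcon.le)) 2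
    omega
  obtain ⟨q, hq1, hq2⟩ := hhit i hii L (by
    rw [hI, mem_filter, mem_range]
    refine ⟨?_, hi1, hi2, hL⟩
    rw [← pow_mul] at hi2
    have h5 := (Nat.pow_lt_pow_iff_right (show 1 < 2 by norm_num)).1 (lt_of_le_of_lt h2 hi2)
    rw [pow_succ]
    exact h5)
  exact ⟨q, hq2, hq1⟩

end Pool.Agent.Q253.Pal
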