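import Pool.Agent.Q253.Pal.Seq
import Pool.Agent.Q253.Cov.UnionT
import Pool.Agent.W139.PX.F4

/-!
# Palindromes in every base: primes, large prime factors, or one very thin set of prime factors
-/

set_option autoImplicit false

namespace Pool.Agent.Q253.Pal

open Finset Filter Topology
open Pool.Agent.W89.Sv (rem)
open Pool.Agent.W89.PW (pv cnt BVW SqW PlP PtW BigW m4)
open Pool.Agent.W139.PX (MajP bigW_of_majP bvW2 sqW_of_majP almostG pv_inj_unif HU HU_facts majP_unif m4_unif cond64 cond1000 majP_alt)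

/-- the exponent of the level of distribution -/
noncomputable def kap (b : ℕ) : ℝ := if 1000 ≤ b then 727 / 1000 else if 64 ≤ b then 6 / 10 else 49 / 100

/-- the number of prime factors -/
def kf (b : ℕ) : ℕ := if 1000 ≤ b then 3 else if 64 ≤ b then 4 else 5

/-- the data of the uniform digits -/
theorem uni_of {b r : ℕ} (hb : 2 ≤ b) {H CM κ lam : ℝ} (hMaj : MajP b b 1 H CM) (hH0 : 0 < H)
    (hHb : 1 ≤ b * H) (hCM : 0 < CM) (hm4 : (b : ℝ) * m4 b 1 < 1) (hκ0 : 0 < κ) (hκH : (b : ℝ) ^ κ * H < 1)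
    (hl0 : 0 < lam) (hl1 : lam ≤ 1)
    (hlam : lam * (1174 / 1000) < 994 / 1000) (hr : 1 / lam + 88 / (43 * κ) < r + 1) :
    BVW b b 1 κ ∧ ∃ c : ℝ, 0 < c ∧ ∀ᶠ L : ℕ in atTop, ∃ G : Finset (Fin L → Fin b × Fin 1),
      c * ((b : ℝ) * (1 : ℕ)) ^ L / L ≤ G.card ∧ ∀ m ∈ G, PlP b r κ L (pv b b 1 L m) := by
  have hb1 : (1 : ℝ) < b := by exact_mod_cast (by omega : 1 < b)
  have hκ1 : κ < 1 := by
    by_contra hcon
    push Not at hcon
    have h1 : (b : ℝ) ≤ (b : ℝ) ^ κ := by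
      calc (b : ℝ) = (b : ℝ) ^ (1 : ℝ) := (Real.rpow_one _).symm
        _ ≤ _ := Real.rpow_le_rpow_of_exponent_le hb1.le hcon
    have h2 : (b : ℝ) * H ≤ (b : ℝ) ^ κ * H := mul_le_mul_of_nonneg_right h1 hH0.le
    linarith
  have hPt : PtW b b 1 := Pool.Agent.W571.PW.Pt.main b b 1 hb hb le_rfl rfl
  have hBig : BigW b b 1 κ := bigW_of_majP hb (by omega) le_rfl rfl hm4 hMaj hH0 hHb hCM hκ0 hκH
  have hBV : BVW b b 1 κ := bvW2 hb (by omega) le_rfl hPt hκ0 hκ1 hBig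
  have hSq : SqW b b 1 κ := sqW_of_majP hMaj hH0 hHb hCM hb (by omega) le_rfl rfl hm4 hκ0 hκH
  exact ⟨hBV, almostG (r := r) hb (by omega) le_rfl rfl hκ0 hκ1 hBV hSq hl0 hl1 hlam hr⟩

/-- the data for every base -/
theorem uni_data {b : ℕ} (hb : 2 ≤ b) : 49 / 100 ≤ kap b ∧ kap b ≤ 1 ∧
    BVW b b 1 (kap b) ∧ ∃ c : ℝ, 0 < c ∧ ∀ᶠ L : ℕ in atTop, ∃ G : Finset (Fin L → Fin b × Fin 1),
      c * ((b : ℝ) * (1 : ℕ)) ^ L / L ≤ G.card ∧ ∀ m ∈ G, PlP b (kf b) (kap b) L (pv b b 1 L m) := by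
  have hbR : (2 : ℝ) ≤ b := by exact_mod_cast hb
  have hb0 : (0 : ℝ) < b := by linarith
  unfold kap kf
  rcases lt_or_ge b 64 with hb' | hb'
  · rw [if_neg (by omega), if_neg (by omega), if_neg (by omega), if_neg (by omega)]
    refine ⟨by norm_num, by norm_num, ?_⟩
    obtain ⟨H, hH⟩ : ∃ H, H = Real.sqrt (1 / b) := ⟨_, rfl⟩
    have hH0 : 0 < H := by rw [hH]; exact Real.sqrt_pos.2 (by positivity)
    have hH2 : H ^ 2 = 1 / b := by rw [hH]; exact Real.sq_sqrt (by positivity)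
    have hb1 : 1 / (b : ℝ) ≤ 1 := by
      rw [div_le_one hb0]
      linarith
    have hH1 : H ≤ 1 := by
      by_contra hcon
      push Not at hcon
      have h1 : 1 < H ^ 2 := one_lt_pow₀ hcon two_ne_zero
      linarith
    have hHb : 1 ≤ b * H := by
      have h1 : (b : ℝ) * H ^ 2 = 1 := by
        rw [hH2]
        field_simp
      have h2 : H ^ 2 ≤ H := by nlinarith
      have h3 : (b : ℝ) * H ^ 2 ≤ b * H := mul_le_mul_of_nonneg_left h2 hb0.le
      linarith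
    have hMaj : MajP b b 1 H (1 / H ^ 3) := majP_alt hb (by omega) le_rfl le_rfl (by omega) hH0 hH1 (by
      rw [hH2, Nat.cast_one, mul_one])
    have hκ : (b : ℝ) ^ (49 / 100 : ℝ) * H < 1 := by
      rw [hH, Real.sqrt_eq_rpow, one_div, Real.inv_rpow hb0.le]
      rw [← div_eq_mul_inv, div_lt_one (by positivity)]
      exact Real.rpow_lt_rpow_of_exponent_lt (by linarith) (by norm_num)
    exact uni_of (r := 5) (κ := 49 / 100) (lam := 84 / 100) hb hMaj hH0 hHb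
      (by positivity) (m4_unif hb) (by norm_num) hκ (by norm_num) (by norm_num) (by norm_num)
      (by norm_num)
  · obtain ⟨h1, h2, h3⟩ := HU_facts hb'
    rcases lt_or_ge b 1000 with h9 | h9
    · rw [if_neg (by omega), if_pos hb', if_neg (by omega), if_pos hb']
      refine ⟨by norm_num, by norm_num, ?_⟩
      exact uni_of (r := 4) (κ := 6 / 10) (lam := 84 / 100) (by omega) (majP_unif hb') h1 h2
        one_pos (m4_unif (by omega)) (by norm_num) (cond64 hb') (by norm_num) (by norm_num) (by norm_num)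
        (by norm_num)
    · rw [if_pos h9, if_pos h9]
      refine ⟨by norm_num, by norm_num, ?_⟩
      exact uni_of (r := 3) (κ := 727 / 1000) (lam := 846 / 1000) (by omega) (majP_unif hb') h1 h2
        one_pos (m4_unif (by omega)) (by norm_num) (cond1000 h9) (by norm_num) (by norm_num) (by norm_num)
        (by norm_num)

open Classical in
/-- **The alternatives for digit vectors.** -/
theorem pal_seq {b s t r : ℕ} (hb : 2 ≤ b) (hs : 1 ≤ s) (ht : 1 ≤ t) {κ : ℝ} (hκ0 : 0 < κ) (hκ1 : κ ≤ 1) (hBV : BVW b s t κ)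
    {c : ℝ} (hc : 0 < c) (hG : ∀ᶠ L : ℕ in atTop, ∃ G : Finset (Fin L → Fin s × Fin t),
      c * ((s : ℝ) * t) ^ L / L ≤ G.card ∧ ∀ m ∈ G, PlP b r κ L (pv b s t L m)) (η : ℝ) (hη : 0 < η) :
    ∃ δ : ℝ, 0 < δ ∧ ∃ ρ : ℝ, 0 < ρ ∧ ∃ C : ℝ, 0 < C ∧ ∃ Q : Set ℕ, (∀ q ∈ Q, q.Prime) ∧
      (∀ x : ℕ, 16 ≤ x → {q ∈ Q | q ≤ x}.Finite ∧ ({q ∈ Q | q ≤ x}.ncard : ℝ) ≤ C * Real.log (Real.log x) ^ 2) ∧
      ∀ᶠ L : ℕ in atTop,
        (δ * ((s : ℝ) * t) ^ L / L ≤ (((univ : Finset (Fin L → Fin s × Fin t)).filter (fun m =>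
            PlP b r κ L (pv b s t L m) ∧ (pv b s t L m).Prime)).card : ℝ) ∨
          δ * ((s : ℝ) * t) ^ L / L ≤ (((univ : Finset (Fin L → Fin s × Fin t)).filter (fun m =>
            PlP b r κ L (pv b s t L m) ∧ ¬ (pv b s t L m).Prime ∧
            ∀ p : ℕ, p.Prime → p ∣ pv b s t L m → (b : ℝ) ^ ((κ - η) * L) < p)).card : ℝ)) ∨
        (ρ ≤ ∑ q ∈ RichS b r L univ (pv b s t L) (fun m => PlP b r κ L (pv b s t L m)) (((s : ℝ) * t) ^ L) δ (κ / 6) (κ - η), (1 : ℝ) / q ∧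
          ∃ q ∈ RichS b r L univ (pv b s t L) (fun m => PlP b r κ L (pv b s t L m)) (((s : ℝ) * t) ^ L) δ (κ / 6) (κ - η), q ∈ Q) := by
  have hs0 : (0 : ℝ) < s := by exact_mod_cast hs
  have ht0 : (0 : ℝ) < t := by exact_mod_cast ht
  obtain ⟨δ, hδ, ρ, hρ, h⟩ := seq_dich (m := 2 * b) (r := r) hb (by omega) (dvd_mul_right 2 b) (κ := κ) (α := κ / 6) (by positivity) (by linarith) hκ1
    (ι := fun L => Fin L → Fin s × Fin t) (fun L => univ) (fun L => pv b s t L) (fun L m => PlP b r κ L (pv b s t L m))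
    (fun L => ((s : ℝ) * t) ^ L) (fun L => by positivity) (by
      filter_upwards [hBV 2] with L hL
      refine le_trans (le_of_eq ?_) hL
      apply sum_congr rfl
      intro n _
      unfold cnt Pool.Agent.W89.Sv.rem
      congr!) hc (by
      filter_upwards [hG] with L ⟨G, h1, h2⟩
      refine h1.trans ?_
      apply Nat.cast_le.2
      apply card_le_card
      intro m hm
      rw [mem_filter]
      exact ⟨mem_univ _, h2 m hm⟩) (by
      filter_upwards with L m hm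
      obtain ⟨h1, h2, h3, h4, h5⟩ := hm
      have h6 : 2 ≤ pv b s t L m := by
        refine le_trans ?_ h1
        calc 2 ≤ b := hb
          _ = b ^ 1 := (pow_one b).symm
          _ ≤ _ := Nat.pow_le_pow_right (by omega) (by omega)
      refine ⟨h6, h4, ?_⟩
      intro p hp hd
      exact (h5 p ((Nat.mem_primeFactorsList (by omega)).2 ⟨hp, hd⟩)).le) η hη
  obtain ⟨C, hC, Q, hQ, hQc, h2⟩ := seq_thin (b := b) (r := r) hb (α := κ / 6) (β := κ - η) (by positivity) (by linarith)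
    (ι := fun L => Fin L → Fin s × Fin t) (fun L => univ) (fun L => pv b s t L) (fun L m => PlP b r κ L (pv b s t L m))
    (fun L => ((s : ℝ) * t) ^ L) (δ := δ) hρ
    (fun L => (δ * ((s : ℝ) * t) ^ L / L ≤ (((univ : Finset (Fin L → Fin s × Fin t)).filter (fun m =>
            PlP b r κ L (pv b s t L m) ∧ (pv b s t L m).Prime)).card : ℝ) ∨
          δ * ((s : ℝ) * t) ^ L / L ≤ (((univ : Finset (Fin L → Fin s × Fin t)).filter (fun m =>
            PlP b r κ L (pv b s t L m) ∧ ¬ (pv b s t L m).Prime ∧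
            ∀ p : ℕ, p.Prime → p ∣ pv b s t L m → (b : ℝ) ^ ((κ - η) * L) < p)).card : ℝ))) (by
      filter_upwards [h] with L hL
      rcases hL with hL | hL | hL
      · exact Or.inl (Or.inl hL)
      · exact Or.inl (Or.inr hL)
      · exact Or.inr hL)
  exact ⟨δ, hδ, ρ, hρ, C, hC, Q, hQ, hQc, h2⟩

end Pool.Agent.Q253.Pal
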